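import Pool.Agent.Helper38.TH.GoalsB
import Pool.Agent.Helper59.TH.TMTG
import Pool.Agent.Helper91.ND.WMT1

/-!
# Project TH (MP_fc6b1e_nt, T100), packet T_MTG1: the assembly of `MTG1`
-/

set_option autoImplicit false

namespace Pool.Agent.Helper41.TH

open Finset Pool.Agent.Helper17.PP Pool.Agent.Helper17.PP0 Pool.Agent.Helper17.PP2
  Pool.Agent.Helper11.M3 Pool.Agent.Helper38.ND Pool.Agent.Helper38.TH
open Pool.Agent.Helper91.ND (step1w T1v)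
open Pool.Agent.Helper59.TH (wf_exp)

section steps

variable {p : ℕ} [Fact p.Prime] {B B₀ k U Λ C : Type} [Field k] [Fintype k]
    [Algebra (ZMod p) k] [AddCommGroup U] [Module k U] [Fintype U] [AddCommGroup Λ] [Module k Λ]
    [Fintype Λ] [AddCommGroup C] (S : Sys p B B₀ k U Λ C)

open Classical in
/-- `step3` for the `q` with a condition -/
theorem step3I (hOSC : C_OSC) (ψ : AddChar k ℂ) (ψ₁ : AddChar (ZMod p) ℂ) (hψ : ψ ≠ 1)
    (hψ₁ : ψ₁ ≠ 1) (E s : ℕ) (I : B → Prop) (P b : Finset B) (hb : b ⊆ P)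
    (hth : ∀ j, s ≤ j → j ≤ th E j) :
    ∑ q ∈ b with (S.Wt E b q ∧ s ≤ S.bl q ∧ I q), ∑ _P₁ ∈ b with (S.Top b _P₁ ∧ s ≤ S.bl _P₁),
        (S.cnt₂ E b q : ℝ) ≤
      (1 / p : ℝ) * ∑ q ∈ b with (S.Wt E b q ∧ s ≤ S.bl q ∧ I q), (S.cnt E b q : ℝ) +
      (1 / p : ℝ) * ∑ s' ∈ (univ : Finset (ZMod p)).erase 0,
        ∑ q ∈ b with (S.Wt E b q ∧ s ≤ S.bl q ∧ I q),
          ∑ _P₁ ∈ b with (S.Top b _P₁ ∧ s ≤ S.bl _P₁),
          (S.osc ψ ψ₁ E P b q s').re := by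
  rw [Finset.sum_comm (s := (univ : Finset (ZMod p)).erase 0), Finset.mul_sum, Finset.mul_sum,
    ← Finset.sum_add_distrib]
  refine Finset.sum_le_sum fun q hq ↦ ?_
  rw [mem_filter] at hq
  rw [Finset.sum_comm (s := (univ : Finset (ZMod p)).erase 0)]
  have hcard : (b.filter fun P₁ ↦ S.Top b P₁ ∧ s ≤ S.bl P₁).card ≤ 1 := by
    rw [Finset.card_le_one]
    intro a ha c hc
    exact Sys.Top.eq S (mem_filter.1 ha).2.1 (mem_filter.1 hc).2.1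
  have hO := hOSC p B B₀ k U Λ C S ψ ψ₁ hψ hψ₁ E P b q hb hq.1 (hth _ hq.2.2.1)
  have h0 : (0 : ℝ) ≤ (1 / p : ℝ) * S.cnt E b q := by positivity
  rcases Nat.lt_or_ge 0 (b.filter fun P₁ ↦ S.Top b P₁ ∧ s ≤ S.bl P₁).card with h | h
  · have h1 : (b.filter fun P₁ ↦ S.Top b P₁ ∧ s ≤ S.bl P₁).card = 1 := by omega
    rw [Finset.sum_const, Finset.sum_const, h1, one_smul, one_smul]
    exact hO
  · have h1 : (b.filter fun P₁ ↦ S.Top b P₁ ∧ s ≤ S.bl P₁).card = 0 := by omega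
    rw [Finset.sum_const, Finset.sum_const, h1, zero_smul, zero_smul, mul_zero, add_zero]
    exact h0

open Classical in
/-- The oscillating sum for two blocks, with a condition on `q`. -/
noncomputable def O1I (ψ : AddChar k ℂ) (ψ₁ : AddChar (ZMod p) ℂ) (E : ℕ) (P : Finset B)
    (W : Finset B → ℝ) (I : B → Prop) (i j : ℕ) (s : ZMod p) : ℂ :=
  ∑ b ∈ P.powerset with S.Fam b, ∑ q ∈ b with (S.Wt E b q ∧ S.bl q = j ∧ I q),
      ∑ _P₁ ∈ b with (S.Top b _P₁ ∧ S.bl _P₁ = i),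
        S.osc ψ ψ₁ E P b q s * (W b : ℂ)

open Classical in
theorem sum_blocksI {M : Type} [AddCommMonoid M] (b : Finset B) (Φ I : B → Prop) (s J : ℕ)
    (F : B → M) (h : ∀ q ∈ b, S.bl q < J) :
    ∑ q ∈ b with (Φ q ∧ s ≤ S.bl q ∧ I q), F q =
      ∑ j ∈ Ico s J, ∑ q ∈ b with (Φ q ∧ S.bl q = j ∧ I q), F q := by
  obtain ⟨Ψ, hΨ⟩ : ∃ Ψ : B → Prop, ∀ q, Ψ q ↔ Φ q ∧ I q := ⟨_, fun _ ↦ Iff.rfl⟩
  have h1 := S.sum_blocks b Ψ s J F h
  refine (Finset.sum_congr (Finset.filter_congr fun q _ ↦ ?_) fun _ _ ↦ rfl).trans (h1.trans ?_)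
  · rw [hΨ]
    tauto
  · refine Finset.sum_congr rfl fun j _ ↦ Finset.sum_congr (Finset.filter_congr fun q _ ↦ ?_)
      fun _ _ ↦ rfl
    rw [hΨ]
    tauto

open Classical in
/-- `step4` with the primes of `V` separated -/
theorem step4V (hOSC : C_OSC) (ψ : AddChar k ℂ) (ψ₁ : AddChar (ZMod p) ℂ) (hψ : ψ ≠ 1)
    (hψ₁ : ψ₁ ≠ 1) (E j₀ s : ℕ) (P : Finset B)
    (W : Finset B → ℝ) (hW : ∀ b, 0 ≤ W b) (V I : B → Prop) (hI : ∀ q, I q ↔ ¬ V q)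
    (hP : ∀ q ∈ P, S.bl q ≤ th E s) (hth : ∀ j, s ≤ j → j ≤ th E j) (hj₀ : j₀ ≤ s) :
    ((Fintype.card k : ℝ) - 1) * ∑ b ∈ P.powerset with (S.Fam b ∧
        (∃ P₁, S.Top b P₁ ∧ s ≤ S.bl P₁) ∧
        ∃ q, S.Wt E b q ∧ j₀ ≤ S.bl q ∧ Fintype.card k - 1 ≤ S.cnt₂ E b q),
        W b ≤
      ∑ j ∈ Ico j₀ s, T1v S E P W j +
      ∑ b ∈ P.powerset with S.Fam b,
        (∑ q ∈ b with (S.Wt E b q ∧ s ≤ S.bl q ∧ V q), (S.cnt E b q : ℝ)) * W b +
      (1 / p : ℝ) * ∑ b ∈ P.powerset with S.Fam b,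
        (∑ q ∈ b with (S.Wt E b q ∧ s ≤ S.bl q ∧ I q), (S.cnt E b q : ℝ)) * W b +
      (1 / p : ℝ) * ∑ s' ∈ (univ : Finset (ZMod p)).erase 0, ∑ i ∈ Ico s (th E s + 1),
        ∑ j ∈ Ico s (th E s + 1), ‖O1I S ψ ψ₁ E P W I i j s'‖ := by
  -- the sum over all `b` in the family of the bound
  have hA : ((Fintype.card k : ℝ) - 1) * ∑ b ∈ P.powerset with (S.Fam b ∧
        (∃ P₁, S.Top b P₁ ∧ s ≤ S.bl P₁) ∧
        ∃ q, S.Wt E b q ∧ j₀ ≤ S.bl q ∧ Fintype.card k - 1 ≤ S.cnt₂ E b q),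
        W b ≤
      ∑ b ∈ P.powerset with S.Fam b,
        (∑ q ∈ b with (S.Wt E b q ∧ j₀ ≤ S.bl q ∧ S.bl q < s), (S.cnt E b q : ℝ) +
        ∑ q ∈ b with (S.Wt E b q ∧ s ≤ S.bl q), ∑ _P₁ ∈ b with (S.Top b _P₁ ∧ s ≤ S.bl _P₁),
          (S.cnt₂ E b q : ℝ)) * W b := by
    rw [Finset.mul_sum]
    refine (Finset.sum_le_sum fun b hb ↦ ?_).trans (Finset.sum_le_sum_of_subset_of_nonneg
      (s := P.powerset.filter fun b ↦ (S.Fam b ∧
        (∃ P₁, S.Top b P₁ ∧ s ≤ S.bl P₁) ∧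
        ∃ q, S.Wt E b q ∧ j₀ ≤ S.bl q ∧ Fintype.card k - 1 ≤ S.cnt₂ E b q)) ?_ ?_)
    · rw [mem_filter] at hb
      exact mul_le_mul_of_nonneg_right
        (Pool.Agent.Helper17.PP.step2 (Λ := Λ) S E j₀ s b hb.2.2.1 hb.2.2.2) (hW b)
    · intro b hb
      rw [mem_filter] at hb ⊢
      exact ⟨hb.1, hb.2.1⟩
    · intro b _ _
      exact mul_nonneg (by positivity) (hW b)
  have hB : ∀ b ∈ P.powerset.filter fun b ↦ S.Fam b,
      (∑ q ∈ b with (S.Wt E b q ∧ j₀ ≤ S.bl q ∧ S.bl q < s), (S.cnt E b q : ℝ) +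
        ∑ q ∈ b with (S.Wt E b q ∧ s ≤ S.bl q), ∑ _P₁ ∈ b with (S.Top b _P₁ ∧ s ≤ S.bl _P₁),
          (S.cnt₂ E b q : ℝ)) * W b ≤
      ∑ j ∈ Ico j₀ s, ∑ q ∈ b with (S.Wt E b q ∧ S.bl q = j),
        (S.cnt E b q : ℝ) * W b +
      (∑ q ∈ b with (S.Wt E b q ∧ s ≤ S.bl q ∧ V q), (S.cnt E b q : ℝ)) * W b +
      (1 / p : ℝ) * ((∑ q ∈ b with (S.Wt E b q ∧ s ≤ S.bl q ∧ I q),
        (S.cnt E b q : ℝ)) * W b) +
      (1 / p : ℝ) * ∑ s' ∈ (univ : Finset (ZMod p)).erase 0, ∑ i ∈ Ico s (th E s + 1),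
        ∑ j ∈ Ico s (th E s + 1), (∑ q ∈ b with (S.Wt E b q ∧ S.bl q = j ∧ I q),
          ∑ _P₁ ∈ b with (S.Top b _P₁ ∧ S.bl _P₁ = i),
            S.osc ψ ψ₁ E P b q s' * (W b : ℂ)).re := by
    intro b hb
    rw [mem_filter, mem_powerset] at hb
    have h3 := step3I (Λ := Λ) S hOSC ψ ψ₁ hψ hψ₁ E s I P b hb.1 hth
    have he : 0 ≤ W b := (hW b)
    have hbl : ∀ q ∈ b, S.bl q < th E s + 1 := fun q hq ↦ Nat.lt_succ_of_le (hP q (hb.1 hq))
    -- rewrite the block sums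
    have e1 : ∑ j ∈ Ico j₀ s, ∑ q ∈ b with (S.Wt E b q ∧ S.bl q = j),
        (S.cnt E b q : ℝ) * W b =
        (∑ q ∈ b with (S.Wt E b q ∧ j₀ ≤ S.bl q ∧ S.bl q < s), (S.cnt E b q : ℝ)) *
          W b := by
      rw [Finset.sum_mul]
      have h := S.sum_blocks (b.filter fun q ↦ S.bl q < s) (fun q ↦ S.Wt E b q) j₀ s
        (fun q ↦ (S.cnt E b q : ℝ) * W b)
        (fun q hq ↦ (mem_filter.1 hq).2)
      rw [Finset.filter_filter] at h
      have h1 : (b.filter fun q ↦ S.bl q < s ∧ (S.Wt E b q ∧ j₀ ≤ S.bl q)) =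
          b.filter fun q ↦ (S.Wt E b q ∧ j₀ ≤ S.bl q ∧ S.bl q < s) := by
        ext q; simp only [mem_filter]; tauto
      rw [h1] at h
      rw [h]
      refine Finset.sum_congr rfl fun j hj ↦ Finset.sum_congr ?_ fun _ _ ↦ rfl
      rw [Finset.filter_filter]
      rw [mem_Ico] at hj
      ext q
      simp only [mem_filter]
      constructor
      · rintro ⟨h1, h2, h3⟩
        exact ⟨h1, by omega, h2, h3⟩
      · rintro ⟨h1, h2, h3, h4⟩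
        exact ⟨h1, h3, h4⟩
    have e3 : ∀ s' : ZMod p, ∑ i ∈ Ico s (th E s + 1),
        ∑ j ∈ Ico s (th E s + 1), (∑ q ∈ b with (S.Wt E b q ∧ S.bl q = j ∧ I q),
          ∑ _P₁ ∈ b with (S.Top b _P₁ ∧ S.bl _P₁ = i),
            S.osc ψ ψ₁ E P b q s' * (W b : ℂ)).re =
        (∑ q ∈ b with (S.Wt E b q ∧ s ≤ S.bl q ∧ I q),
          ∑ _P₁ ∈ b with (S.Top b _P₁ ∧ s ≤ S.bl _P₁),
          (S.osc ψ ψ₁ E P b q s').re) * W b := by
      intro s'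
      rw [Finset.sum_comm, sum_blocksI S b (fun q ↦ S.Wt E b q) I s (th E s + 1)
        _ hbl, Finset.sum_mul]
      refine Finset.sum_congr rfl fun j _ ↦ ?_
      rw [Finset.sum_mul]
      simp only [Complex.re_sum]
      rw [Finset.sum_comm]
      refine Finset.sum_congr rfl fun q _ ↦ ?_
      rw [S.sum_blocks b (fun P₁ ↦ S.Top b P₁) s (th E s + 1) _ hbl, Finset.sum_mul]
      refine Finset.sum_congr rfl fun i _ ↦ ?_
      rw [Finset.sum_mul]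
      refine Finset.sum_congr rfl fun _ _ ↦ ?_
      rw [Complex.re_mul_ofReal]
    -- the primes of `V`
    have e4 : ∑ q ∈ b with (S.Wt E b q ∧ s ≤ S.bl q),
        ∑ _P₁ ∈ b with (S.Top b _P₁ ∧ s ≤ S.bl _P₁), (S.cnt₂ E b q : ℝ) ≤
        ∑ q ∈ b with (S.Wt E b q ∧ s ≤ S.bl q ∧ V q), (S.cnt E b q : ℝ) +
        ∑ q ∈ b with (S.Wt E b q ∧ s ≤ S.bl q ∧ I q),
          ∑ _P₁ ∈ b with (S.Top b _P₁ ∧ s ≤ S.bl _P₁), (S.cnt₂ E b q : ℝ) := by
      rw [← Finset.sum_filter_add_sum_filter_not (b.filter fun q ↦ S.Wt E b q ∧ s ≤ S.bl q) V,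
        Finset.filter_filter, Finset.filter_filter]
      have e5 : b.filter (fun q ↦ (S.Wt E b q ∧ s ≤ S.bl q) ∧ ¬ V q) =
          b.filter (fun q ↦ S.Wt E b q ∧ s ≤ S.bl q ∧ I q) :=
        Finset.filter_congr fun q _ ↦ by rw [hI q, and_assoc]
      have e6 : b.filter (fun q ↦ (S.Wt E b q ∧ s ≤ S.bl q) ∧ V q) =
          b.filter (fun q ↦ S.Wt E b q ∧ s ≤ S.bl q ∧ V q) :=
        Finset.filter_congr fun q _ ↦ by rw [and_assoc]
      rw [e5, e6]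
      refine add_le_add (Finset.sum_le_sum fun q _ ↦ ?_) le_rfl
      have hcard : (b.filter fun P₁ ↦ S.Top b P₁ ∧ s ≤ S.bl P₁).card ≤ 1 := by
        rw [Finset.card_le_one]
        intro a ha c hc
        exact Sys.Top.eq S (mem_filter.1 ha).2.1 (mem_filter.1 hc).2.1
      rw [Finset.sum_const, nsmul_eq_mul]
      have h1 : ((b.filter fun P₁ ↦ S.Top b P₁ ∧ s ≤ S.bl P₁).card : ℝ) ≤ 1 := by
        exact_mod_cast hcard
      have h2 : (S.cnt₂ E b q : ℝ) ≤ S.cnt E b q := by exact_mod_cast S.cnt₂_le E b q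
      have h3 : (0 : ℝ) ≤ S.cnt₂ E b q := Nat.cast_nonneg _
      nlinarith
    rw [e1]
    simp only [e3]
    rw [← Finset.sum_mul]
    have h4 := mul_le_mul_of_nonneg_right (e4.trans (add_le_add le_rfl h3)) he
    nlinarith [h4]
  refine hA.trans ((Finset.sum_le_sum hB).trans ?_)
  rw [Finset.sum_add_distrib, Finset.sum_add_distrib, Finset.sum_add_distrib]
  refine add_le_add (add_le_add (add_le_add ?_ le_rfl) ?_) ?_
  · rw [Finset.sum_comm]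
    rfl
  · rw [← Finset.mul_sum]
  · rw [← Finset.mul_sum, Finset.sum_comm]
    refine mul_le_mul_of_nonneg_left ?_ (by positivity)
    refine Finset.sum_le_sum fun s' _ ↦ ?_
    rw [Finset.sum_comm]
    refine Finset.sum_le_sum fun i _ ↦ ?_
    rw [Finset.sum_comm]
    refine Finset.sum_le_sum fun j _ ↦ ?_
    unfold O1I
    rw [← Complex.re_sum]
    exact Complex.re_le_norm _

end steps

/-- **T_MTG1**. -/
theorem t_mtg1 : T_MTG1 := by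
  classical
  intro hCOR hCNT hOSC hMNB hEX0' hEX2' hEX3' hEX5' hEX6' hSM4 hBLK hPRTB hOSB
    p _ B B₀ k U Λ Cc _ _ _ _ _ _ _ _ _ _ _ S ψ Lk Cs M κ g K hypG ψ₁ K₁ hyp₁ V hV T₀ r₀ hT₀
    ε hε
  obtain ⟨I, hI⟩ : ∃ I : B → Prop, ∀ q, I q ↔ ¬ V q := ⟨_, fun _ ↦ Iff.rfl⟩
  have hyp₃ := hypG.toHyp₃
  have hyp : Hyp₀ S ψ g K := hyp₃.toHyp₀
  obtain ⟨K₅, hK₅⟩ := hEX2' p B B₀ k U Λ Cc S ψ g K hyp
  obtain ⟨K₃, hK₃⟩ := hOSB p B B₀ k U Λ Cc S ψ Lk Cs M κ g K hypG ψ₁ K₁ hyp₁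
  have hEX0 := hEX0' p B B₀ k U Λ Cc S ψ g K hyp
  have hEX5 := hEX5' p B B₀ k U Λ Cc S ψ g K hyp
  have hEX6 := hEX6' p B B₀ k U Λ Cc S ψ g K hyp
  have hEX3 := hEX3' p B B₀ k U Λ Cc S ψ ψ₁ g K₁ hyp₁
  have hK : 1 ≤ K := hyp.one_le
  set E := 2 * K * (K + 1) with hE
  have hE1 : 1 ≤ E := by
    rw [hE]; nlinarith
  set Q : ℝ := (Fintype.card k : ℝ) with hQ
  have hQ2 : 2 ≤ Q := by
    rw [hQ]; exact_mod_cast Fintype.one_lt_card (α := k)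
  have hp : 2 ≤ (p : ℝ) := by exact_mod_cast (Fact.out : p.Prime).two_le
  set ρ : ℝ := (Fintype.card U / Fintype.card Λ : ℝ) with hρ
  have hρ0 : 0 ≤ ρ := by positivity
  set Vc : ℝ := 8 + K₃ with hVc
  have hVc0 : 0 < Vc := by positivity
  set e : ℝ := ε / Vc with he
  have he0 : 0 < e := by positivity
  -- the choice of `j₀`
  obtain ⟨jE, hjE⟩ := le_th_of_large E hE1
  obtain ⟨j5, hj5⟩ := hEX5 E e hE1 he0
  obtain ⟨j9, hj9⟩ := hCOR p B B₀ k U Λ Cc S ψ g K hyp _ wf_exp e he0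
  obtain ⟨n5, hn5⟩ := exists_nat_ge (K₅ / e : ℝ)
  set j₀ := 2 + jE + j5 + j9 + n5 with hj₀
  have hK5 : (K₅ : ℝ) / j₀ ≤ e := by
    rw [div_le_iff₀ (by positivity)]
    rw [div_le_iff₀ he0] at hn5
    have : (n5 : ℝ) ≤ j₀ := by exact_mod_cast (by omega : n5 ≤ j₀)
    nlinarith
  have hth : ∀ j, j₀ ≤ j → j ≤ th E j := fun j hj ↦ hjE j (by omega)
  -- the choice of `X₀`
  obtain ⟨L4, hL4⟩ := hSM4 K₁ K₃ e hyp₁.one_le he0
  obtain ⟨X0, hX0⟩ := hEX0 j₀ e he0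
  obtain ⟨X3, hX3⟩ := hEX3 e he0
  obtain ⟨X6, hX6⟩ := hEX6 E e hE1 he0
  obtain ⟨X9, hX9⟩ := hj9 j₀ (by omega)
  obtain ⟨XB, hXB⟩ := hPRTB p B B₀ k U Λ Cc S ψ Lk Cs M κ g K hypG V T₀ r₀ hT₀ e he0
  obtain ⟨XC, hXC⟩ := hBLK p B B₀ k U Λ Cc S ψ Lk Cs M κ g K hypG e he0
  refine ⟨max (2 ^ (L4 + 9 + j₀ * j₀)) (max (max X0 (max X3 X6)) (max X9 (max XB XC))),
    fun X hX G hG P ↦ ?_⟩
  have hXp : (2 : ℝ) ^ (L4 + 9 + j₀ * j₀) ≤ X := (le_max_left _ _).trans hX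
  have hXX := (le_max_right _ _).trans hX
  have hXX1 := (le_max_left _ _).trans hXX
  have hXX2 := (le_max_right _ _).trans hXX
  have hXX3' := (le_max_right _ _).trans hXX2
  have hXX0 : X0 ≤ X := (le_max_left _ _).trans hXX1
  have hXX3 : X3 ≤ X := (le_max_left _ _).trans ((le_max_right _ _).trans hXX1)
  have hXX6 : X6 ≤ X := (le_max_right _ _).trans ((le_max_right _ _).trans hXX1)
  have hXX9 : X9 ≤ X := (le_max_left _ _).trans hXX2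
  have hXXB : XB ≤ X := (le_max_left _ _).trans hXX3'
  have hXXC : XC ≤ X := (le_max_right _ _).trans hXX3'
  have hLX := le_lg hXp
  set L := lg X with hL
  set s := Nat.sqrt L with hs
  have hX1 : 1 ≤ X := le_trans (one_le_pow₀ (by norm_num)) hXp
  have hj₀s : j₀ ≤ s := by
    rw [hs, Nat.le_sqrt]; omega
  have hgX : 1 ≤ g X := hyp.g_one X
  have hXg : 0 ≤ X * g X := by positivity
  set P' := P.filter fun q ↦ S.bl q ≤ th E s with hP'
  have hP'bl : ∀ q ∈ P', S.bl q ≤ th E s := fun q hq ↦ (mem_filter.1 hq).2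
  -- the weight
  set W : Finset B → ℝ := fun b ↦ G b * Real.exp (-(S.nm b / X)) with hWdef
  have hW0 : ∀ b, 0 ≤ W b := fun b ↦ mul_nonneg (hG.nonneg b) (Real.exp_pos _).le
  have hWe : ∀ b, W b ≤ Real.exp (-(S.nm b / X)) := fun b ↦
    mul_le_of_le_one_left (Real.exp_pos _).le (hG.le_one b)
  have hdom : ∀ F : Finset (Finset B), ∑ b ∈ F, W b ≤
      ∑ b ∈ F, Real.exp (-(S.nm b / X)) := fun F ↦ Finset.sum_le_sum fun b _ ↦ hWe b
  -- the exceptional sets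
  have b1 := step1w (Λ := Λ) S hCNT E j₀ s hj₀s W hW0 P
  have b6 := (hdom _).trans (hX6 X hXX6 P)
  have b0 := (hdom _).trans (hX0 X hXX0 P)
  have b2 := (hdom _).trans ((hK₅ j₀ X P (by omega) hX1).trans
    (mul_le_mul_of_nonneg_right hK5 hXg))
  have b3 := (hdom _).trans (hX3 X hXX3 P)
  have b5 := (hdom _).trans (hj5 j₀ (by omega) X hX1 P)
  -- the good sets
  have b4 := step4V (Λ := Λ) S hOSC ψ ψ₁ hyp₁.ψ_ne hyp₁.ψ₁_ne E j₀ s P' W hW0 V I hI hP'bl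
    (fun j hj ↦ hth j (by omega)) hj₀s
  obtain ⟨hS1, -⟩ := hX9 X hXX9 P' hP'bl
  have hS1' : ∑ j ∈ Ico j₀ s, T1v S E P' W j ≤ e * (X * g X) := by
    refine le_trans (Finset.sum_le_sum fun j _ ↦ ?_) hS1
    unfold T1v T1w
    refine Finset.sum_le_sum fun b _ ↦ Finset.sum_le_sum fun q _ ↦ ?_
    exact mul_le_mul_of_nonneg_left (hWe b) (Nat.cast_nonneg _)
  -- the sums on the right side
  set FG : ℝ := ∑ b ∈ P.powerset with S.Fam b, W b with hFG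
  set Fe : ℝ := ∑ b ∈ P.powerset with S.Fam b, Real.exp (-(S.nm b / X)) with hFe
  set Fx : ℝ := ∑ b ∈ P.powerset with (S.Fam b ∧ ExX S V T₀ r₀ L b), Real.exp (-(S.nm b / X))
    with hFx
  have hsubP : P'.powerset ⊆ P.powerset := powerset_mono.2 (filter_subset _ _)
  have hFG' : ∑ b ∈ P'.powerset with S.Fam b, W b ≤ FG :=
    Finset.sum_le_sum_of_subset_of_nonneg (filter_subset_filter _ hsubP) fun b _ _ ↦ hW0 b
  have hFe' : ∑ b ∈ P'.powerset with S.Fam b, Real.exp (-(S.nm b / X)) ≤ Fe :=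
    Finset.sum_le_sum_of_subset_of_nonneg (filter_subset_filter _ hsubP)
      fun b _ _ ↦ (Real.exp_pos _).le
  have hFx' : ∑ b ∈ P'.powerset with (S.Fam b ∧ ExX S V T₀ r₀ L b),
      Real.exp (-(S.nm b / X)) ≤ Fx :=
    Finset.sum_le_sum_of_subset_of_nonneg (filter_subset_filter _ hsubP)
      fun b _ _ ↦ (Real.exp_pos _).le
  -- primes in `V`
  have hB := hXB X hXXB P' hP'bl
  have hPV : ∑ b ∈ P'.powerset with S.Fam b,
      (∑ q ∈ b with (S.Wt E b q ∧ s ≤ S.bl q ∧ V q), (S.cnt E b q : ℝ)) * W b ≤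
      ρ * (Q * ((1 / Q) ^ r₀ * Fe + Fx)) + e * (X * g X) := by
    have h3 : ∑ b ∈ P'.powerset with S.Fam b,
        (∑ q ∈ b with (S.Wt E b q ∧ s ≤ S.bl q ∧ V q), (S.cnt E b q : ℝ)) * W b ≤
        ∑ b ∈ P'.powerset with S.Fam b,
        (∑ q ∈ b with (S.Wt E b q ∧ s ≤ S.bl q ∧ V q), (S.cnt E b q : ℝ)) *
          Real.exp (-(S.nm b / X)) :=
      Finset.sum_le_sum fun b _ ↦ mul_le_mul_of_nonneg_left (hWe b)
        (Finset.sum_nonneg fun q _ ↦ Nat.cast_nonneg _)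
    refine h3.trans (hB.trans ?_)
    have hQ0 : (0 : ℝ) ≤ (1 / Q) ^ r₀ := by positivity
    have h4 : (1 / Q) ^ r₀ * ∑ b ∈ P'.powerset with S.Fam b, Real.exp (-(S.nm b / X)) +
        ∑ b ∈ P'.powerset with (S.Fam b ∧ ExX S V T₀ r₀ L b), Real.exp (-(S.nm b / X)) ≤
        (1 / Q) ^ r₀ * Fe + Fx :=
      add_le_add (mul_le_mul_of_nonneg_left hFe' hQ0) hFx'
    exact add_le_add (mul_le_mul_of_nonneg_left (mul_le_mul_of_nonneg_left h4 (by linarith))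
      hρ0) le_rfl
  -- primes not in `V`
  have hC := hXC X hXXC V G I hG (fun q hq ↦ (hI q).1 hq) P' hP'bl
  have hPnV : ∑ b ∈ P'.powerset with S.Fam b,
      (∑ q ∈ b with (S.Wt E b q ∧ s ≤ S.bl q ∧ I q), (S.cnt E b q : ℝ)) * W b ≤
      ρ * (Q * FG) + e * (X * g X) := by
    refine hC.trans (add_le_add (mul_le_mul_of_nonneg_left ?_ hρ0) le_rfl)
    refine le_trans ?_ (mul_le_mul_of_nonneg_left hFG' (by linarith : (0 : ℝ) ≤ Q))
    rw [Finset.mul_sum]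
    refine Finset.sum_le_sum fun b hb ↦ ?_
    rw [mem_filter, mem_powerset] at hb
    refine mul_le_mul_of_nonneg_right ?_ (hW0 b)
    have h5 := hMNB p B B₀ k U Λ Cc S E s b fun q hq ↦ hP'bl q (hb.1 hq)
    refine le_trans (Finset.sum_le_sum_of_subset_of_nonneg ?_ ?_) h5
    · intro q hq
      rw [mem_filter] at hq ⊢
      exact ⟨hq.1, hq.2.1, hq.2.2.1⟩
    · intro q _ _
      have : 0 ≤ Q - 1 := by linarith
      positivity
  -- the oscillating sums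
  have hO : ∀ s' ∈ (univ : Finset (ZMod p)).erase 0, ∑ i ∈ Ico s (th E s + 1),
      ∑ j ∈ Ico s (th E s + 1), ‖O1I S ψ ψ₁ E P' W I i j s'‖ ≤
        K₃ * e * (X * g X) := by
    intro s' hs'
    have hs'0 : s' ≠ 0 := (mem_erase.1 hs').1
    have h1 : ∀ i ∈ Ico s (th E s + 1), ∀ j ∈ Ico s (th E s + 1),
        ‖O1I S ψ ψ₁ E P' W I i j s'‖ ≤ K₃ *
          (((L : ℝ) + 2) ^ K₃ * ((i : ℝ) + j) ^ K₁ *
          (2 : ℝ) ^ (-(min i j : ℝ) / K₁) * min 1 (2 ^ (L + 1) / 2 ^ (i + j))) * (X * g X) := by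
      intro i hi j hj
      rw [mem_Ico] at hi hj
      have h2 := hK₃ V G hG hV E i j s' X P' (by omega) (by omega) (hth j (by omega)) hs'0 hX1
      have hm := min_bound X (i + j)
      have h3 : O1I S ψ ψ₁ E P' W I i j s' =
          ∑ b ∈ P'.powerset with S.Fam b, ∑ q ∈ b with (S.Wt E b q ∧ S.bl q = j ∧ ¬ V q),
      ∑ _P₁ ∈ b with (S.Top b _P₁ ∧ S.bl _P₁ = i),
        (G b : ℂ) * S.osc ψ ψ₁ E P' b q s' * (Real.exp (-(S.nm b / X)) : ℂ) := by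
        unfold O1I
        refine Finset.sum_congr rfl fun b _ ↦ Finset.sum_congr
          (Finset.filter_congr fun q _ ↦ by rw [hI q]) fun q _ ↦
          Finset.sum_congr rfl fun _ _ ↦ ?_
        rw [hWdef]
        push_cast
        ring
      rw [h3]
      refine h2.trans ?_
      refine mul_le_mul_of_nonneg_right ?_ hXg
      calc (K₃ : ℝ) * (lg X + 2) ^ K₃ * (i + j) ^ K₁ * (2 : ℝ) ^ (-(min i j : ℝ) / K₁) *
            min 1 (X / 2 ^ (i + j))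
          = (K₃ * (((lg X : ℝ) + 2) ^ K₃ * ((i : ℝ) + j) ^ K₁ *
            (2 : ℝ) ^ (-(min i j : ℝ) / K₁))) * min 1 (X / 2 ^ (i + j)) := by ring
        _ ≤ (K₃ * (((lg X : ℝ) + 2) ^ K₃ * ((i : ℝ) + j) ^ K₁ *
            (2 : ℝ) ^ (-(min i j : ℝ) / K₁))) * min 1 (2 ^ (lg X + 1) / 2 ^ (i + j)) :=
            mul_le_mul_of_nonneg_left hm (by positivity)
        _ = _ := by ring
    refine (Finset.sum_le_sum fun i hi ↦ Finset.sum_le_sum fun j hj ↦ h1 i hi j hj).trans ?_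
    simp only [← Finset.sum_mul, ← Finset.mul_sum]
    exact mul_le_mul_of_nonneg_right (mul_le_mul_of_nonneg_left
      (hL4 L (by omega) (th E s + 1)) (Nat.cast_nonneg _)) hXg
  have hO2 : (1 / p : ℝ) * ∑ s' ∈ (univ : Finset (ZMod p)).erase 0, ∑ i ∈ Ico s (th E s + 1),
        ∑ j ∈ Ico s (th E s + 1), ‖O1I S ψ ψ₁ E P' W I i j s'‖ ≤
        K₃ * e * (X * g X) := by
    have h1 := Finset.sum_le_sum hO
    rw [Finset.sum_const] at h1
    have hc : ((univ : Finset (ZMod p)).erase 0).card ≤ p := by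
      refine (Finset.card_le_card (Finset.erase_subset _ _)).trans ?_
      rw [Finset.card_univ, ZMod.card]
    have hc' : (((univ : Finset (ZMod p)).erase 0).card : ℝ) ≤ p := by exact_mod_cast hc
    have h0 : 0 ≤ K₃ * e * (X * g X) := by positivity
    rw [nsmul_eq_mul] at h1
    have h2 := h1.trans (mul_le_mul_of_nonneg_right hc' h0)
    rw [one_div, inv_mul_le_iff₀ (by linarith)]
    exact h2
  -- conclusion
  set Gd : ℝ := ∑ b ∈ P'.powerset with (S.Fam b ∧ (∃ P₁, S.Top b P₁ ∧ s ≤ S.bl P₁) ∧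
        ∃ q, S.Wt E b q ∧ j₀ ≤ S.bl q ∧ Fintype.card k - 1 ≤ S.cnt₂ E b q),
        W b with hGd
  have hQ1 : 0 < Q - 1 := by linarith
  have hp1 : (1 / p : ℝ) ≤ 1 := by
    rw [div_le_one (by linarith)]; linarith
  have hp0 : (0 : ℝ) ≤ 1 / p := by positivity
  have hgood : (Q - 1) * Gd ≤ ρ * (Q / p * FG) + ρ * (Q * ((1 / Q) ^ r₀ * Fe + Fx)) +
      (3 + K₃) * e * (X * g X) := by
    have h2 := mul_le_mul_of_nonneg_left hPnV hp0
    have h3 : (1 / p : ℝ) * (e * (X * g X)) ≤ 1 * (e * (X * g X)) :=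
      mul_le_mul_of_nonneg_right hp1 (by positivity)
    have h4 : (1 / p : ℝ) * (ρ * (Q * FG) + e * (X * g X)) =
        ρ * (Q / p * FG) + (1 / p : ℝ) * (e * (X * g X)) := by
      field_simp
    rw [h4] at h2
    have h5 : (Q - 1) * Gd ≤ _ := b4
    refine h5.trans ((add_le_add (add_le_add (add_le_add hS1' hPV) h2) hO2).trans ?_)
    rw [one_mul] at h3
    have e1 : (3 + (K₃ : ℝ)) * e * (X * g X) = e * (X * g X) + e * (X * g X) +
        e * (X * g X) + K₃ * e * (X * g X) := by ring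
    rw [e1]
    linarith [h3]
  have hG2 : Gd ≤ ρ * (Q / (p * (Q - 1))) * FG + ρ * (Q / (Q - 1)) * ((1 / Q) ^ r₀ * Fe + Fx) +
      (3 + K₃) * e * (X * g X) := by
    have h0 : 0 ≤ (3 + (K₃ : ℝ)) * e * (X * g X) := by positivity
    have h1 : Gd ≤ (ρ * (Q / p * FG) + ρ * (Q * ((1 / Q) ^ r₀ * Fe + Fx)) +
      (3 + K₃) * e * (X * g X)) / (Q - 1) := by
      rw [le_div_iff₀ hQ1]; linarith
    refine h1.trans ?_
    rw [add_div, add_div]
    refine add_le_add (add_le_add (le_of_eq ?_) (le_of_eq ?_)) (div_le_self h0 (by linarith))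
    · field_simp
    · field_simp
  refine b1.trans ?_
  have b1' := add_le_add (add_le_add (add_le_add (add_le_add (add_le_add b6 b0) b2) b3) b5) hG2
  refine b1'.trans (le_of_eq ?_)
  have hWe' : Vc * e = ε := by
    rw [he]; field_simp
  rw [← hWe', hVc]
  ring

end Pool.Agent.Helper41.TH
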